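import Pool.Agent.Q236.FC.Main

/-!
Few large integers in every class of the 2-descent over a number field.
-/

open Polynomial

set_option autoImplicit false

namespace Pool.Agent.Q236.FC

open Pool.Agent.Y910.F

section fld

variable {K : Type} [Field K] [NumberField K]

lemma nonempty_emb : Nonempty (K →ₐ[ℚ] ℂ) := by
  rw [← Fintype.card_pos_iff, AlgHom.card ℚ K ℂ]
  exact Module.finrank_pos

/-- an element with equal conjugates is rational -/
lemma rational_of_conj (c : K) (h : ∀ τ τ' : K →ₐ[ℚ] ℂ, τ c = τ' c) :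
    c ∈ Set.range (algebraMap ℚ K) := by
  classical
  have hne : Nonempty (K →ₐ[ℚ] ℂ) := nonempty_emb
  obtain ⟨τ0⟩ : Nonempty (K →ₐ[ℚ] ℂ) := nonempty_emb
  have h1 := trace_eq_sum_embeddings (K := ℚ) (L := K) ℂ (x := c)
  have h2 : ∑ σ : K →ₐ[ℚ] ℂ, σ c = (Fintype.card (K →ₐ[ℚ] ℂ) : ℂ) * τ0 c := by
    rw [Finset.sum_congr rfl fun σ _ => h σ τ0, Finset.sum_const, Finset.card_univ, nsmul_eq_mul]
  have hcard : (Fintype.card (K →ₐ[ℚ] ℂ) : ℂ) ≠ 0 := by
    exact_mod_cast Fintype.card_ne_zero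
  refine ⟨Algebra.trace ℚ K c / (Fintype.card (K →ₐ[ℚ] ℂ) : ℚ), ?_⟩
  apply τ0.toRingHom.injective
  have h3 : τ0 (algebraMap ℚ K (Algebra.trace ℚ K c / (Fintype.card (K →ₐ[ℚ] ℂ) : ℚ))) = τ0 c := by
    rw [AlgHom.commutes, map_div₀, h1, h2, map_natCast]
    field_simp
  exact h3

/-- the values of an element of `K[T] / (g)` at the roots of `g` -/
noncomputable def ev (g : ℤ[X]) (τ : K →ₐ[ℚ] ℂ) (z : ℂ) (hz : aeval z g = 0) :
    AdjoinRoot (g.map (Int.castRingHom K)) →+* ℂ :=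
  AdjoinRoot.lift (τ : K →+* ℂ) z (by
    rw [eval₂_map, ← hz, aeval_def]
    congr 1
    exact Subsingleton.elim _ _)

lemma ev_mk (g : ℤ[X]) (τ : K →ₐ[ℚ] ℂ) (z : ℂ) (hz : aeval z g = 0) (P : K[X]) :
    ev g τ z hz (AdjoinRoot.mk _ P) = eval₂ (τ : K →+* ℂ) z P :=
  AdjoinRoot.lift_mk _ _

lemma ev_lin (g : ℤ[X]) (τ : K →ₐ[ℚ] ℂ) (z : ℂ) (hz : aeval z g = 0) (x : ℤ) :
    ev g τ z hz (AdjoinRoot.mk _ (C (x : K) - X)) = (x : ℂ) - z := by
  rw [ev_mk, eval₂_sub, eval₂_C, eval₂_X, map_intCast]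

/-- an element of `K[T] / (g)` whose values at the roots of `g` do not depend on the embedding of
`K` is the image of a rational polynomial -/
lemma descend (g : ℤ[X]) (hg0 : g ≠ 0) {d : ℕ} (hd : g.natDegree = d) (hd0 : 0 < d)
    (θ : Fin d → ℂ) (hθ : Function.Injective θ)
    (hroot : ∀ i, aeval (θ i) g = 0) (c : AdjoinRoot (g.map (Int.castRingHom K)))
    (h : ∀ i, ∀ τ τ' : K →ₐ[ℚ] ℂ, ev g τ (θ i) (hroot i) c = ev g τ' (θ i) (hroot i) c) :
    ∃ Q : ℚ[X], AdjoinRoot.mk (g.map (Int.castRingHom K)) (Q.map (algebraMap ℚ K)) = c := by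
  classical
  obtain ⟨P0, hP0⟩ := AdjoinRoot.mk_surjective c
  obtain ⟨G, hG⟩ : ∃ G : K[X], G = g.map (Int.castRingHom K) := ⟨_, rfl⟩
  have hGd : G.natDegree = d := by
    rw [hG, natDegree_map_eq_of_injective (RingHom.injective_int _), hd]
  have hG0 : G ≠ 0 := by
    rw [hG]; exact (Polynomial.map_ne_zero_iff (RingHom.injective_int _)).2 hg0
  obtain ⟨P, hP⟩ : ∃ P : K[X], P = P0 % G := ⟨_, rfl⟩
  have hPd : P.degree < d := by
    have h1 : P.degree < G.degree := by rw [hP]; exact EuclideanDomain.mod_lt P0 hG0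
    rwa [degree_eq_natDegree hG0, hGd] at h1
  have hPc : AdjoinRoot.mk (g.map (Int.castRingHom K)) P = c := by
    rw [← hP0, AdjoinRoot.mk_eq_mk, ← hG]
    have h1 : P - P0 = -(G * (P0 / G)) := by
      have h2 := EuclideanDomain.div_add_mod P0 G
      rw [← hP] at h2
      linear_combination h2
    rw [h1]
    exact (dvd_mul_right _ _).neg_right
  have hval : ∀ τ τ' : K →ₐ[ℚ] ℂ, P.map (τ : K →+* ℂ) = P.map (τ' : K →+* ℂ) := by
    intro τ τ'
    have h1 : ∀ σ : K →ₐ[ℚ] ℂ, (P.map (σ : K →+* ℂ)).degree < ((Finset.univ : Finset (Fin d)).card : ℕ) := by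
      intro σ
      rw [Finset.card_univ, Fintype.card_fin]
      exact (degree_map_le).trans_lt hPd
    refine Polynomial.eq_of_degrees_lt_of_eval_index_eq (v := θ) Finset.univ hθ.injOn (h1 τ) (h1 τ') ?_
    intro i _
    have h2 := h i τ τ'
    rw [← hPc, ev_mk, ev_mk] at h2
    rw [eval_map, eval_map]
    exact h2
  have hlift : P ∈ lifts (algebraMap ℚ K) := by
    rw [lifts_iff_coeff_lifts]
    intro k
    apply rational_of_conj
    intro τ τ'
    have h1 := congrArg (fun q : ℂ[X] => q.coeff k) (hval τ τ')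
    simp only [coeff_map] at h1
    exact h1
  obtain ⟨Q, hQ⟩ := (mem_lifts P).1 hlift
  exact ⟨Q, by rw [hQ, hPc]⟩

theorem fewK (d : ℕ) : ∃ M : ℕ, ∀ n : ℕ, ∃ N : ℕ, ∀ (K : Type) [Field K] [NumberField K],
    Module.finrank ℚ K ≤ n → ∀ (H : ℕ) (f : ℤ[X]), 1 ≤ H → f.natDegree = d →
    (f.map (Int.castRingHom ℚ)).Separable → (∀ i, |f.coeff i| ≤ H) →
    ∀ g : ℤ[X], g ∣ f → 3 ≤ g.natDegree →
    ∀ δ : AdjoinRoot (g.map (Int.castRingHom K)), IsUnit δ → ∀ s : Finset ℤ,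
    (∀ x ∈ s, (2 * H : ℤ) ^ M < |x| ∧
      IsSquare (δ * AdjoinRoot.mk (g.map (Int.castRingHom K)) (C (x : K) - X))) →
    s.card ≤ N := by
  classical
  obtain ⟨M, N, hMN⟩ := few d
  refine ⟨M + (d + 1) * 2, fun n => ⟨N * 2 ^ (n * d), ?_⟩⟩
  intro K _ _ hKn H f hH hfd hsep hcoef g hgf hg3 δ hδ s hs
  have hf0 : f ≠ 0 := by
    rintro rfl
    simp at hsep
    exact hsep.ne_zero rfl
  have hg0 : g ≠ 0 := by
    rintro rfl
    simp at hg3
  have hgsep : (g.map (Int.castRingHom ℚ)).Separable := by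
    obtain ⟨q, rfl⟩ := hgf
    rw [Polynomial.map_mul] at hsep
    exact hsep.of_mul_left
  have hge : g.natDegree ≤ d := by rw [← hfd]; exact natDegree_le_of_dvd hgf hf0
  obtain ⟨θ, hθ, hroot, -⟩ := enum g hgsep
  rcases s.eq_empty_or_nonempty with rfl | hne
  · simp
  obtain ⟨x0, hx0⟩ := hne
  -- size of the roots
  have hbig : ∀ x ∈ s, (2 * H : ℤ) ^ M < |x| := by
    intro x hx
    refine lt_of_le_of_lt ?_ (hs x hx).1
    apply pow_le_pow_right₀ _ (by omega)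
    have : (1 : ℤ) ≤ H := by exact_mod_cast hH
    linarith
  have hx0θ : ∀ i, (x0 : ℂ) - θ i ≠ 0 := by
    intro i h
    have h1 : (x0 : ℂ) = θ i := sub_eq_zero.1 h
    have hfθ : aeval (θ i) f = 0 := by
      obtain ⟨q, rfl⟩ := hgf
      rw [map_mul, hroot i, zero_mul]
    have h2 := root_bound f H hf0 hcoef hH (θ i) hfθ
    rw [← h1, Complex.norm_intCast] at h2
    have h3 : |x0| ≤ ((2 * H : ℕ) : ℤ) := by exact_mod_cast h2
    have h4 := (hs x0 hx0).1
    have h5 : (2 * H : ℤ) ≤ (2 * H : ℤ) ^ (M + (d + 1) * 2) := by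
      have h6 : (1 : ℤ) ≤ 2 * H := by
        have : (1 : ℤ) ≤ H := by exact_mod_cast hH
        linarith
      exact le_self_pow₀ h6 (by omega)
    push_cast at h3
    linarith
  -- the square roots
  obtain ⟨u, hu⟩ := hδ
  have hB : ∀ x : ℤ, ∃ B : AdjoinRoot (g.map (Int.castRingHom K)),
      x ∈ s → δ * AdjoinRoot.mk (g.map (Int.castRingHom K)) (C (x : K) - X) = B * B := by
    intro x
    by_cases hx : x ∈ s
    · obtain ⟨B, hB⟩ := (hs x hx).2
      exact ⟨B, fun _ => hB⟩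
    · exact ⟨0, fun h => absurd h hx⟩
  choose B hB using hB
  obtain ⟨l, hl⟩ : ∃ l : ℤ → AdjoinRoot (g.map (Int.castRingHom K)),
      ∀ x, l x = AdjoinRoot.mk (g.map (Int.castRingHom K)) (C (x : K) - X) := ⟨_, fun _ => rfl⟩
  simp only [← hl] at hB
  obtain ⟨v, hv⟩ : ∃ v : AdjoinRoot (g.map (Int.castRingHom K)), δ * v = 1 :=
    ⟨((u⁻¹ : (AdjoinRoot (g.map (Int.castRingHom K)))ˣ) :
      AdjoinRoot (g.map (Int.castRingHom K))), by rw [← hu]; exact u.mul_inv⟩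
  obtain ⟨b, hb⟩ : ∃ b : ℤ → AdjoinRoot (g.map (Int.castRingHom K)), ∀ x, b x = B x0 * B x * v :=
    ⟨_, fun _ => rfl⟩
  have hb2 : ∀ x ∈ s, b x * b x = l x0 * l x := by
    intro x hx
    calc b x * b x = (B x0 * B x0) * (B x * B x) * (v * v) := by rw [hb]; ring
      _ = (δ * l x0) * (δ * l x) * (v * v) := by rw [← hB x0 hx0, ← hB x hx]
      _ = l x0 * l x * (δ * v) * (δ * v) := by ring
      _ = l x0 * l x := by rw [hv]; ring
  obtain ⟨τ0⟩ : Nonempty (K →ₐ[ℚ] ℂ) := nonempty_emb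
  obtain ⟨β, hβ⟩ : ∃ β : ℤ → (K →ₐ[ℚ] ℂ) → Fin g.natDegree → ℂ,
      ∀ x τ i, β x τ i = ev g τ (θ i) (hroot i) (b x) := ⟨_, fun _ _ _ => rfl⟩
  have hβ2 : ∀ x ∈ s, ∀ τ i, β x τ i ^ 2 = ((x0 : ℂ) - θ i) * ((x : ℂ) - θ i) := by
    intro x hx τ i
    rw [hβ, sq, ← map_mul, hb2 x hx, map_mul, hl, hl, ev_lin, ev_lin]
  let ε : ℤ → ((K →ₐ[ℚ] ℂ) × Fin g.natDegree → Bool) := fun x p =>
    decide (β x p.1 p.2 = β x τ0 p.2)
  have hfib : ∀ a ∈ s.image ε, (s.filter fun x => ε x = a).card ≤ N := by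
    intro a _
    refine hMN H f hH hfd hsep hcoef g hgf hg3 _ (fun x hx => hbig x (Finset.mem_filter.1 hx).1) ?_
    intro x hx x' hx'
    obtain ⟨hxs, hxa⟩ := Finset.mem_filter.1 hx
    obtain ⟨hxs', hxa'⟩ := Finset.mem_filter.1 hx'
    obtain ⟨c, hc⟩ : ∃ c, c = B x * B x' * v := ⟨_, rfl⟩
    have hc2 : c * c = l x * l x' := by
      calc c * c = (B x * B x) * (B x' * B x') * (v * v) := by rw [hc]; ring
        _ = (δ * l x) * (δ * l x') * (v * v) := by rw [← hB x hxs, ← hB x' hxs']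
        _ = l x * l x' * (δ * v) * (δ * v) := by ring
        _ = l x * l x' := by rw [hv]; ring
    have hbb : b x * b x' = l x0 * c := by
      calc b x * b x' = (B x0 * B x0) * (B x * B x') * (v * v) := by rw [hb, hb]; ring
        _ = (δ * l x0) * (B x * B x') * (v * v) := by rw [← hB x0 hx0]
        _ = l x0 * (B x * B x' * v) * (δ * v) := by ring
        _ = l x0 * c := by rw [hv, hc]; ring
    have hprod : ∀ i, ∀ τ : K →ₐ[ℚ] ℂ, β x τ i * β x' τ i = β x τ0 i * β x' τ0 i := by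
      intro i τ
      have h1 : ε x (τ, i) = ε x' (τ, i) := by rw [hxa, hxa']
      have h2 : β x τ i = β x τ0 i ↔ β x' τ i = β x' τ0 i := by
        simpa only [ε, decide_eq_decide] using h1
      have hsgn : ∀ y ∈ s, β y τ i = β y τ0 i ∨ β y τ i = -β y τ0 i := by
        intro y hy
        apply sq_eq_sq_iff_eq_or_eq_neg.1
        rw [hβ2 y hy, hβ2 y hy]
      by_cases h3 : β x τ i = β x τ0 i
      · rw [h3, h2.1 h3]
      · have h4 : ¬ β x' τ i = β x' τ0 i := fun h => h3 (h2.2 h)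
        rw [(hsgn x hxs).resolve_left h3, (hsgn x' hxs').resolve_left h4]
        ring
    have hcv : ∀ i, ∀ τ τ' : K →ₐ[ℚ] ℂ,
        ev g τ (θ i) (hroot i) c = ev g τ' (θ i) (hroot i) c := by
      intro i
      have h1 : ∀ τ : K →ₐ[ℚ] ℂ, ((x0 : ℂ) - θ i) * ev g τ (θ i) (hroot i) c =
          β x τ0 i * β x' τ0 i := by
        intro τ
        rw [← hprod i τ, hβ, hβ, ← map_mul, hbb, map_mul, hl, ev_lin]
      intro τ τ'
      exact mul_left_cancel₀ (hx0θ i) ((h1 τ).trans (h1 τ').symm)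
    obtain ⟨Q, hQ⟩ := descend g hg0 rfl (by omega) θ hθ hroot c hcv
    refine ⟨Q, ?_⟩
    rw [← Polynomial.map_dvd_map' (algebraMap ℚ K)]
    have h5 : (g.map (Int.castRingHom ℚ)).map (algebraMap ℚ K) = g.map (Int.castRingHom K) := by
      rw [Polynomial.map_map]
      congr 1
      exact RingHom.ext_int _ _
    have h6 : (Q ^ 2 - (C (x : ℚ) - X) * (C (x' : ℚ) - X)).map (algebraMap ℚ K) =
        (Q.map (algebraMap ℚ K)) ^ 2 - (C (x : K) - X) * (C (x' : K) - X) := by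
      simp [Polynomial.map_sub, Polynomial.map_mul, Polynomial.map_pow]
    rw [h5, h6, ← AdjoinRoot.mk_eq_mk, map_pow, hQ, map_mul, ← hl, ← hl, sq]
    exact hc2
  have himg : (s.image ε).card ≤ 2 ^ (n * d) := by
    calc (s.image ε).card ≤ Fintype.card ((K →ₐ[ℚ] ℂ) × Fin g.natDegree → Bool) :=
          Finset.card_le_univ _
      _ = 2 ^ (Fintype.card (K →ₐ[ℚ] ℂ) * g.natDegree) := by simp
      _ ≤ 2 ^ (n * d) := by
        apply Nat.pow_le_pow_right (by norm_num)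
        refine Nat.mul_le_mul ?_ hge
        rw [AlgHom.card ℚ K ℂ]
        exact hKn
  exact (Finset.card_le_mul_card_image s N hfib).trans (Nat.mul_le_mul_left _ himg)

end fld

end Pool.Agent.Q236.FC
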