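import Mathlib

/-!
A gap principle for the integers `x` in one class of the 2-descent of `y ^ 2 = g(x)`: if
`(x - T) (x' - T)` is a square modulo `g` and the signs of the square roots agree, then the larger
one of `x`, `x'` is at least the square of the smaller one.
-/

open Polynomial

set_option autoImplicit false

namespace Pool.Agent.Q236.FC

/-- the sign of a number whose square is near to one -/
lemma sign_near {ρ : ℂ} {η : ℝ} (h : ‖ρ ^ 2 - 1‖ ≤ η) :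
    (0 ≤ ρ.re → ‖ρ - 1‖ ≤ η) ∧ (¬ 0 ≤ ρ.re → ‖ρ + 1‖ ≤ η) := by
  have h1 : ρ ^ 2 - 1 = (ρ - 1) * (ρ + 1) := by ring
  rw [h1, norm_mul] at h
  constructor
  · intro hr
    have h2 : 1 ≤ ‖ρ + 1‖ := by
      have h3 : (ρ + 1).re = ρ.re + 1 := by simp
      have h4 := Complex.re_le_norm (ρ + 1)
      linarith
    nlinarith [norm_nonneg (ρ - 1)]
  · intro hr
    have h2 : 1 ≤ ‖ρ - 1‖ := by
      have h3 : (ρ - 1).re = ρ.re - 1 := by simp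
      have h4 := Complex.abs_re_le_norm (ρ - 1)
      rw [h3, abs_le] at h4
      linarith [h4.1]
    nlinarith [norm_nonneg (ρ + 1)]

lemma mul_near {p q : ℂ} {η : ℝ} (hη : η ≤ 1 / 100) (hp : ‖p - 1‖ ≤ η) (hq : ‖q - 1‖ ≤ η) :
    ‖p * q - 1‖ ≤ 3 * η := by
  have h0 : 0 ≤ η := (norm_nonneg _).trans hp
  have h1 : p * q - 1 = (p - 1) * (q - 1) + (p - 1) + (q - 1) := by ring
  have h2 : ‖(p - 1) * (q - 1)‖ ≤ η * η := by
    rw [norm_mul]; exact mul_le_mul hp hq (norm_nonneg _) h0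
  calc ‖p * q - 1‖ = ‖(p - 1) * (q - 1) + (p - 1) + (q - 1)‖ := by rw [h1]
    _ ≤ ‖(p - 1) * (q - 1)‖ + ‖p - 1‖ + ‖q - 1‖ := norm_add₃_le
    _ ≤ 3 * η := by nlinarith

lemma prod_near {ρ ρ' u : ℂ} {η : ℝ} (hη : η ≤ 1 / 100) (hρ : ‖ρ ^ 2 - 1‖ ≤ η)
    (hρ' : ‖ρ' ^ 2 - 1‖ ≤ η) (hs : (0 ≤ ρ.re) ↔ (0 ≤ ρ'.re)) (hu : ‖u - 1‖ ≤ η) :
    ‖ρ * ρ' / u - 1‖ ≤ 1 / 2 := by
  have h0 : 0 ≤ η := (norm_nonneg _).trans hu
  have h1 : ‖ρ * ρ' - 1‖ ≤ 3 * η := by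
    by_cases hr : 0 ≤ ρ.re
    · exact mul_near hη ((sign_near hρ).1 hr) ((sign_near hρ').1 (hs.1 hr))
    · have h2 := (sign_near hρ).2 hr
      have h3 := (sign_near hρ').2 (fun h => hr (hs.2 h))
      have h4 : ρ * ρ' - 1 = (-ρ) * (-ρ') - 1 := by ring
      rw [h4]
      refine mul_near hη ?_ ?_
      · have h6 : -ρ - 1 = -(ρ + 1) := by ring
        rw [h6, norm_neg]; exact h2
      · have h6 : -ρ' - 1 = -(ρ' + 1) := by ring
        rw [h6, norm_neg]; exact h3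
  have h5 : 99 / 100 ≤ ‖u‖ := by
    have h6 : (1 : ℂ) = u - (u - 1) := by ring
    have h7 : (1 : ℝ) ≤ ‖u‖ + ‖u - 1‖ := by
      calc (1 : ℝ) = ‖(1 : ℂ)‖ := by simp
        _ = ‖u - (u - 1)‖ := by rw [← h6]
        _ ≤ ‖u‖ + ‖u - 1‖ := norm_sub_le _ _
    linarith
  have hu0 : u ≠ 0 := by
    intro h; rw [h, norm_zero] at h5; linarith
  have h8 : ρ * ρ' / u - 1 = ((ρ * ρ' - 1) - (u - 1)) / u := by field_simp; ring
  rw [h8, norm_div, div_le_iff₀ (by linarith)]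
  have h9 := norm_sub_le (ρ * ρ' - 1) (u - 1)
  nlinarith

lemma second {w v : ℂ} {δ : ℝ} (hw : ‖w - 1‖ ≤ 1 / 2) (hv : ‖v - 1‖ ≤ 1 / 2)
    (h : ‖w ^ 2 - v ^ 2‖ ≤ δ) : ‖w - v‖ ≤ δ := by
  have h1 : w ^ 2 - v ^ 2 = (w - v) * (w + v) := by ring
  rw [h1, norm_mul] at h
  have h2 : 1 ≤ ‖w + v‖ := by
    have h3 : (2 : ℂ) = (w + v) - (w - 1) - (v - 1) := by ring
    have h4 : (2 : ℝ) ≤ ‖w + v‖ + ‖w - 1‖ + ‖v - 1‖ := by
      calc (2 : ℝ) = ‖(2 : ℂ)‖ := by simp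
        _ = ‖(w + v) - (w - 1) - (v - 1)‖ := by rw [← h3]
        _ ≤ ‖(w + v) - (w - 1)‖ + ‖v - 1‖ := norm_sub_le _ _
        _ ≤ ‖w + v‖ + ‖w - 1‖ + ‖v - 1‖ := by
          have := norm_sub_le (w + v) (w - 1)
          linarith
    linarith
  nlinarith [norm_nonneg (w - v)]

lemma gamma_near {x0 xa xb t s0 sa sb Ba Bb : ℂ} {R X Y : ℝ} (hY : 0 < Y) (hYX : Y ≤ X)
    (hRY : 1000 * R ≤ Y) (ht : ‖t‖ ≤ R) (h0 : Y ≤ ‖x0‖) (ha : X ≤ ‖xa‖) (hb : X ≤ ‖xb‖)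
    (hs0 : s0 ^ 2 = x0) (hsa : sa ^ 2 = xa) (hsb : sb ^ 2 = xb)
    (hBa : Ba ^ 2 = (x0 - t) * (xa - t)) (hBb : Bb ^ 2 = (x0 - t) * (xb - t))
    (hsign : (0 ≤ (Ba / (s0 * sa)).re) ↔ (0 ≤ (Bb / (s0 * sb)).re)) :
    x0 - t ≠ 0 ∧ ‖Ba * Bb / (x0 - t) - sa * sb * (1 - (1 / xa + 1 / xb) / 2 * t)‖ ≤
      ‖sa * sb‖ * (2 * R ^ 2 / X ^ 2) := by
  have hR : 0 ≤ R := (norm_nonneg _).trans ht
  have hX : 0 < X := hY.trans_le hYX
  have hx0 : x0 ≠ 0 := by intro h; rw [h, norm_zero] at h0; linarith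
  have hxa : xa ≠ 0 := by intro h; rw [h, norm_zero] at ha; linarith
  have hxb : xb ≠ 0 := by intro h; rw [h, norm_zero] at hb; linarith
  have hs00 : s0 ≠ 0 := by rintro rfl; apply hx0; rw [← hs0]; ring
  have hsa0 : sa ≠ 0 := by rintro rfl; apply hxa; rw [← hsa]; ring
  have hsb0 : sb ≠ 0 := by rintro rfl; apply hxb; rw [← hsb]; ring
  have hq : ∀ x : ℂ, Y ≤ ‖x‖ → ‖t / x‖ ≤ 1 / 1000 := by
    intro x hx
    rw [norm_div, div_le_iff₀ (by linarith)]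
    linarith
  have hi : ∀ x : ℂ, X ≤ ‖x‖ → ‖1 / x‖ ≤ 1 / X := by
    intro x hx
    rw [norm_div, norm_one]
    exact one_div_le_one_div_of_le hX hx
  have hxt : x0 - t ≠ 0 := by
    intro h
    have h1 : x0 = t := sub_eq_zero.1 h
    rw [h1] at h0
    linarith
  refine ⟨hxt, ?_⟩
  have hρ : ∀ x s B : ℂ, x ≠ 0 → s ≠ 0 → Y ≤ ‖x‖ → s ^ 2 = x → B ^ 2 = (x0 - t) * (x - t) →
      (B / (s0 * s)) ^ 2 = (1 - t / x0) * (1 - t / x) ∧ ‖(B / (s0 * s)) ^ 2 - 1‖ ≤ 1 / 100 := by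
    intro x s B hx hs hxX hsx hB
    have h1 : (B / (s0 * s)) ^ 2 = (1 - t / x0) * (1 - t / x) := by
      rw [div_pow, mul_pow, hs0, hsx, hB]
      field_simp
    refine ⟨h1, ?_⟩
    rw [h1]
    have h2 := hq x0 h0
    have h3 := hq x hxX
    have h4 : (1 - t / x0) * (1 - t / x) - 1 = (t / x0) * (t / x) - t / x0 - t / x := by ring
    rw [h4]
    have h5 : ‖(t / x0) * (t / x)‖ ≤ 1 / 1000 * (1 / 1000) := by
      rw [norm_mul]
      exact mul_le_mul h2 h3 (norm_nonneg _) (by norm_num)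
    have h6 := norm_sub_le ((t / x0) * (t / x) - t / x0) (t / x)
    have h7 := norm_sub_le ((t / x0) * (t / x)) (t / x0)
    linarith
  obtain ⟨ra, ra'⟩ := hρ xa sa Ba hxa hsa0 (hYX.trans ha) hsa hBa
  obtain ⟨rb, rb'⟩ := hρ xb sb Bb hxb hsb0 (hYX.trans hb) hsb hBb
  have hu : ‖(1 - t / x0) - 1‖ ≤ 1 / 100 := by
    have h1 : (1 - t / x0) - 1 = -(t / x0) := by ring
    rw [h1, norm_neg]
    linarith [hq x0 h0]
  have hw := prod_near le_rfl ra' rb' hsign hu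
  obtain ⟨w, hwd⟩ : ∃ w : ℂ, w = Ba / (s0 * sa) * (Bb / (s0 * sb)) / (1 - t / x0) := ⟨_, rfl⟩
  rw [← hwd] at hw
  have hu0 : 1 - t / x0 ≠ 0 := by
    have h1 : 1 - t / x0 = (x0 - t) / x0 := by field_simp
    rw [h1]
    exact div_ne_zero hxt hx0
  have hw2 : w ^ 2 = (1 - t / xa) * (1 - t / xb) := by
    rw [hwd, div_pow, mul_pow, ra, rb]
    field_simp
  obtain ⟨v, hvd⟩ : ∃ v : ℂ, v = 1 - (1 / xa + 1 / xb) / 2 * t := ⟨_, rfl⟩
  have hα : ‖(1 / xa + 1 / xb) / 2‖ ≤ 1 / X := by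
    rw [norm_div]
    have h1 := norm_add_le (1 / xa) (1 / xb)
    have h2 := hi xa ha
    have h3 := hi xb hb
    simp only [Complex.norm_ofNat]
    linarith
  have hv : ‖v - 1‖ ≤ 1 / 2 := by
    have h1 : v - 1 = -((1 / xa + 1 / xb) / 2 * t) := by rw [hvd]; ring
    rw [h1, norm_neg, norm_mul]
    calc ‖(1 / xa + 1 / xb) / 2‖ * ‖t‖ ≤ 1 / X * R :=
          mul_le_mul hα ht (norm_nonneg _) (by positivity)
      _ = R / X := by ring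
      _ ≤ 1 / 2 := by rw [div_le_iff₀ hX]; linarith
  have hwv : ‖w ^ 2 - v ^ 2‖ ≤ 2 * R ^ 2 / X ^ 2 := by
    have h1 : w ^ 2 - v ^ 2 = t ^ 2 * (1 / xa * (1 / xb) - ((1 / xa + 1 / xb) / 2) ^ 2) := by
      rw [hw2, hvd]; field_simp; ring
    rw [h1, norm_mul, norm_pow]
    have h2 : ‖1 / xa * (1 / xb) - ((1 / xa + 1 / xb) / 2) ^ 2‖ ≤ 2 * (1 / X) ^ 2 := by
      have h3 := norm_sub_le (1 / xa * (1 / xb)) (((1 / xa + 1 / xb) / 2) ^ 2)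
      have h4 : ‖1 / xa * (1 / xb)‖ ≤ 1 / X * (1 / X) := by
        rw [norm_mul]
        exact mul_le_mul (hi xa ha) (hi xb hb) (norm_nonneg _) (by positivity)
      have h5 : ‖((1 / xa + 1 / xb) / 2) ^ 2‖ ≤ (1 / X) ^ 2 := by
        rw [norm_pow]
        exact pow_le_pow_left₀ (norm_nonneg _) hα 2
      nlinarith
    calc ‖t‖ ^ 2 * ‖1 / xa * (1 / xb) - ((1 / xa + 1 / xb) / 2) ^ 2‖
        ≤ R ^ 2 * (2 * (1 / X) ^ 2) :=
          mul_le_mul (pow_le_pow_left₀ (norm_nonneg _) ht 2) h2 (norm_nonneg _) (by positivity)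
      _ = 2 * R ^ 2 / X ^ 2 := by field_simp
  have hfin := second hw hv hwv
  have hg : Ba * Bb / (x0 - t) - sa * sb * (1 - (1 / xa + 1 / xb) / 2 * t) = sa * sb * (w - v) := by
    rw [← hvd, mul_sub]
    congr 1
    rw [hwd]
    have h1 : 1 - t / x0 = (x0 - t) / s0 ^ 2 := by rw [hs0]; field_simp
    rw [h1]
    field_simp
  rw [hg, norm_mul]
  exact mul_le_mul_of_nonneg_left hfin (norm_nonneg _)

/-- the divided difference of three values -/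
lemma dd_small {g1 g2 g3 t1 t2 t3 c α : ℂ} {E R : ℝ} (h1 : ‖t1‖ ≤ R) (h2 : ‖t2‖ ≤ R)
    (h3 : ‖t3‖ ≤ R) (e1 : ‖g1 - c * (1 - α * t1)‖ ≤ E) (e2 : ‖g2 - c * (1 - α * t2)‖ ≤ E)
    (e3 : ‖g3 - c * (1 - α * t3)‖ ≤ E) :
    ‖g1 * (t2 - t3) + g2 * (t3 - t1) + g3 * (t1 - t2)‖ ≤ 6 * R * E := by
  have h0 : g1 * (t2 - t3) + g2 * (t3 - t1) + g3 * (t1 - t2) =
      (g1 - c * (1 - α * t1)) * (t2 - t3) + (g2 - c * (1 - α * t2)) * (t3 - t1) +
        (g3 - c * (1 - α * t3)) * (t1 - t2) := by ring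
  have hR : 0 ≤ R := (norm_nonneg _).trans h1
  have hE : 0 ≤ E := (norm_nonneg _).trans e1
  have hm : ∀ a b c' : ℂ, ‖a‖ ≤ E → ‖b‖ ≤ R → ‖c'‖ ≤ R → ‖a * (b - c')‖ ≤ E * (2 * R) := by
    intro a b c' ha hb hc
    rw [norm_mul]
    refine mul_le_mul ha ?_ (norm_nonneg _) hE
    have := norm_sub_le b c'
    linarith
  rw [h0]
  refine norm_add₃_le.trans ?_
  have k1 := hm _ _ _ e1 h2 h3
  have k2 := hm _ _ _ e2 h3 h1
  have k3 := hm _ _ _ e3 h1 h2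
  linarith

/-- an algebraic integer with small conjugates is zero -/
lemma int_small {E : IntermediateField ℚ ℂ} [FiniteDimensional ℚ E] (z : E)
    (hz : IsIntegral ℤ (z : ℂ)) (hs : ∀ σ : E →ₐ[ℚ] ℂ, ‖σ z‖ ≤ 1 / 2) : z = 0 := by
  by_contra hz0
  have h1 := Algebra.norm_eq_prod_embeddings ℚ ℂ z
  have hzi : IsIntegral ℤ z := by
    refine (isIntegral_algHom_iff ((E.val).restrictScalars ℤ) ?_).1 ?_
    · exact Subtype.val_injective
    · exact hz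
  have h2 : IsIntegral ℤ (Algebra.norm ℚ z) := Algebra.isIntegral_norm ℚ hzi
  obtain ⟨y, hy⟩ := IsIntegrallyClosed.isIntegral_iff.1 h2
  have hy0 : y ≠ 0 := by
    intro h
    apply hz0
    rw [h, map_zero] at hy
    exact Algebra.norm_eq_zero_iff.1 hy.symm
  have h3 : (1 : ℝ) ≤ ‖algebraMap ℚ ℂ (Algebra.norm ℚ z)‖ := by
    rw [← hy]
    have h4 : algebraMap ℚ ℂ (algebraMap ℤ ℚ y) = ((y : ℤ) : ℂ) := by simp
    rw [h4, Complex.norm_intCast]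
    exact_mod_cast Int.one_le_abs hy0
  rw [h1, norm_prod] at h3
  have h5 : ∏ σ : E →ₐ[ℚ] ℂ, ‖σ z‖ ≤ ∏ _σ : E →ₐ[ℚ] ℂ, (1 / 2 : ℝ) :=
    Finset.prod_le_prod (fun σ _ => norm_nonneg _) (fun σ _ => hs σ)
  rw [Finset.prod_const] at h5
  have h6 : (1 / 2 : ℝ) ^ (Finset.univ : Finset (E →ₐ[ℚ] ℂ)).card ≤ 1 / 2 := by
    have h7 : 1 ≤ (Finset.univ : Finset (E →ₐ[ℚ] ℂ)).card := by
      rw [Nat.one_le_iff_ne_zero, Finset.card_ne_zero]
      exact ⟨E.val, Finset.mem_univ _⟩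
    calc (1 / 2 : ℝ) ^ (Finset.univ : Finset (E →ₐ[ℚ] ℂ)).card ≤ (1 / 2) ^ 1 :=
          pow_le_pow_of_le_one (by norm_num) (by norm_num) h7
      _ = 1 / 2 := pow_one _
  linarith

/-- three collinear points on the parabola-like curve `γ ^ 2 = (a - t) (b - t)` -/
lemma collinear {a b t1 t2 t3 g1 g2 g3 : ℂ} (h12 : t1 ≠ t2) (h13 : t1 ≠ t3) (h23 : t2 ≠ t3)
    (e1 : g1 ^ 2 = (a - t1) * (b - t1)) (e2 : g2 ^ 2 = (a - t2) * (b - t2))
    (e3 : g3 ^ 2 = (a - t3) * (b - t3))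
    (hN : g1 * (t2 - t3) + g2 * (t3 - t1) + g3 * (t1 - t2) = 0) : a = b := by
  have d12 : t1 - t2 ≠ 0 := sub_ne_zero.2 h12
  have d13 : t1 - t3 ≠ 0 := sub_ne_zero.2 h13
  have d23 : t2 - t3 ≠ 0 := sub_ne_zero.2 h23
  obtain ⟨q, hq⟩ : ∃ q : ℂ, q = (g1 - g2) / (t1 - t2) := ⟨_, rfl⟩
  obtain ⟨p, hp⟩ : ∃ p : ℂ, p = g1 - q * t1 := ⟨_, rfl⟩
  have f1 : g1 = p + q * t1 := by rw [hp]; ring
  have f2 : g2 = p + q * t2 := by
    have h : q * (t1 - t2) = g1 - g2 := by rw [hq]; field_simp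
    rw [hp]
    linear_combination h
  have f3 : g3 = p + q * t3 := by
    have h : (g3 - (p + q * t3)) * (t1 - t2) = 0 := by
      rw [f1, f2] at hN
      linear_combination hN
    rcases mul_eq_zero.1 h with h | h
    · exact sub_eq_zero.1 h
    · exact absurd h d12
  rw [f1] at e1
  rw [f2] at e2
  rw [f3] at e3
  -- `A t ^ 2 + B t + C = 0` at three points
  have k12 : ((q ^ 2 - 1) * (t1 + t2) + (2 * p * q + a + b)) = 0 := by
    have h : ((q ^ 2 - 1) * (t1 + t2) + (2 * p * q + a + b)) * (t1 - t2) = 0 := by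
      linear_combination e1 - e2
    rcases mul_eq_zero.1 h with h | h
    · exact h
    · exact absurd h d12
  have k13 : ((q ^ 2 - 1) * (t1 + t3) + (2 * p * q + a + b)) = 0 := by
    have h : ((q ^ 2 - 1) * (t1 + t3) + (2 * p * q + a + b)) * (t1 - t3) = 0 := by
      linear_combination e1 - e3
    rcases mul_eq_zero.1 h with h | h
    · exact h
    · exact absurd h d13
  have kA : q ^ 2 - 1 = 0 := by
    have h : (q ^ 2 - 1) * (t2 - t3) = 0 := by linear_combination k12 - k13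
    rcases mul_eq_zero.1 h with h | h
    · exact h
    · exact absurd h d23
  have kB : 2 * p * q + a + b = 0 := by linear_combination k12 - (t1 + t2) * kA
  have kC : p ^ 2 - a * b = 0 := by linear_combination e1 - t1 ^ 2 * kA - t1 * kB
  have h : (a - b) ^ 2 = 0 := by
    linear_combination (a + b - 2 * p * q) * kB + 4 * p ^ 2 * kA + 4 * kC
  exact sub_eq_zero.1 (pow_eq_zero_iff (two_ne_zero)|>.1 h)

/-- two large integers in the same class with the same signs -/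
theorem pair {d : ℕ} (hd : 3 ≤ d) (H : ℕ) (g : ℤ[X]) (θ : Fin d → ℂ) (hH : 1 ≤ H) (hg : g ≠ 0)
    (hθ : Function.Injective θ) (hroot : ∀ i, aeval (θ i) g = 0)
    (hall : ∀ z : ℂ, aeval z g = 0 → ∃ i, θ i = z) (hlc : |g.leadingCoeff| ≤ H)
    (hR : ∀ i, ‖θ i‖ ≤ ((2 * H : ℕ) : ℝ)) (x0 xa xb : ℤ) (h0 : (2 * H : ℤ) ^ 16 < |x0|)
    (ha : (2 * H : ℤ) ^ 16 < |xa|) (hab : |xa| ≤ |xb|) (hb : |xb| < |xa| ^ 2)
    (s0 sa sb : ℂ) (hs0 : s0 ^ 2 = x0) (hsa : sa ^ 2 = xa) (hsb : sb ^ 2 = xb) (Ba Bb : ℚ[X])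
    (hBa : ∀ i, (aeval (θ i) Ba) ^ 2 = ((x0 : ℂ) - θ i) * ((xa : ℂ) - θ i))
    (hBb : ∀ i, (aeval (θ i) Bb) ^ 2 = ((x0 : ℂ) - θ i) * ((xb : ℂ) - θ i))
    (hsign : ∀ i, (0 ≤ (aeval (θ i) Ba / (s0 * sa)).re) ↔ (0 ≤ (aeval (θ i) Bb / (s0 * sb)).re)) :
    xa = xb := by
  classical
  -- sizes
  obtain ⟨R, hRd⟩ : ∃ R : ℝ, R = ((2 * H : ℕ) : ℝ) := ⟨_, rfl⟩
  obtain ⟨X, hXd⟩ : ∃ X : ℝ, X = ((|xa| : ℤ) : ℝ) := ⟨_, rfl⟩
  have hH' : (1 : ℝ) ≤ H := by exact_mod_cast hH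
  have hR2 : 2 ≤ R := by rw [hRd]; push_cast; linarith
  have hcast : ∀ x : ℤ, (2 * H : ℤ) ^ 16 < |x| → R ^ 16 ≤ ((|x| : ℤ) : ℝ) := by
    intro x hx
    have h1 : (((2 * H : ℤ) ^ 16 : ℤ) : ℝ) ≤ ((|x| : ℤ) : ℝ) := by exact_mod_cast hx.le
    rw [hRd]
    push_cast at h1 ⊢
    exact h1
  have hnorm : ∀ x : ℤ, ‖(x : ℂ)‖ = ((|x| : ℤ) : ℝ) := by
    intro x
    rw [Complex.norm_intCast]
    push_cast
    rfl
  have hX16 : R ^ 16 ≤ X := by rw [hXd]; exact hcast xa ha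
  have hR15 : (1000 : ℝ) ≤ R ^ 15 := by
    calc (1000 : ℝ) ≤ 2 ^ 15 := by norm_num
      _ ≤ R ^ 15 := pow_le_pow_left₀ (by norm_num) hR2 15
  have hRY : 1000 * R ≤ R ^ 16 := by
    calc 1000 * R ≤ R ^ 15 * R := mul_le_mul_of_nonneg_right hR15 (by linarith)
      _ = R ^ 16 := by ring
  have hY0 : (0 : ℝ) < R ^ 16 := by positivity
  have hX0 : 0 < X := hY0.trans_le hX16
  obtain ⟨α, hα⟩ : ∃ α : ℂ, α = (1 / (xa : ℂ) + 1 / (xb : ℂ)) / 2 := ⟨_, rfl⟩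
  obtain ⟨γ, hγ⟩ : ∃ γ : Fin d → ℂ, ∀ i, γ i = aeval (θ i) Ba * aeval (θ i) Bb / ((x0 : ℂ) - θ i) :=
    ⟨_, fun _ => rfl⟩
  obtain ⟨c, hc⟩ : ∃ c : ℝ, c = ‖sa * sb‖ := ⟨_, rfl⟩
  have key : ∀ i, (x0 : ℂ) - θ i ≠ 0 ∧ ‖γ i - sa * sb * (1 - α * θ i)‖ ≤ c * (2 * R ^ 2 / X ^ 2) := by
    intro i
    rw [hγ, hα, hc]
    refine gamma_near hY0 hX16 hRY (by rw [hRd]; exact hR i) ?_ ?_ ?_ hs0 hsa hsb (hBa i) (hBb i)
      (hsign i)
    · rw [hnorm]; exact hcast x0 h0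
    · rw [hnorm, hXd]
    · rw [hnorm, hXd]; exact_mod_cast hab
  have hγ2 : ∀ i, γ i ^ 2 = ((xa : ℂ) - θ i) * ((xb : ℂ) - θ i) := by
    intro i
    have h1 := (key i).1
    rw [hγ, div_pow, mul_pow, hBa, hBb]
    field_simp
  -- the divided differences are small
  have hN : ∀ i j k, ‖γ i * (θ j - θ k) + γ j * (θ k - θ i) + γ k * (θ i - θ j)‖ ≤
      6 * R * (c * (2 * R ^ 2 / X ^ 2)) := by
    intro i j k
    exact dd_small (by rw [hRd]; exact hR i) (by rw [hRd]; exact hR j) (by rw [hRd]; exact hR k)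
      (key i).2 (key j).2 (key k).2
  have hc0 : 0 ≤ c := by rw [hc]; exact norm_nonneg _
  have hc2 : c ^ 2 ≤ X ^ 3 := by
    have h1 : c ^ 2 = ((|xa| : ℤ) : ℝ) * ((|xb| : ℤ) : ℝ) := by
      rw [hc, ← norm_pow, mul_pow, hsa, hsb, norm_mul, hnorm, hnorm]
    have h2 : ((|xb| : ℤ) : ℝ) ≤ X ^ 2 := by
      rw [hXd]
      exact_mod_cast hb.le
    rw [h1, ← hXd]
    calc X * ((|xb| : ℤ) : ℝ) ≤ X * X ^ 2 := mul_le_mul_of_nonneg_left h2 hX0.le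
      _ = X ^ 3 := by ring
  have hsmall : (H : ℝ) ^ 2 * (6 * R * (c * (2 * R ^ 2 / X ^ 2))) ≤ 1 / 2 := by
    have hHR : (H : ℝ) = R / 2 := by rw [hRd]; push_cast; ring
    have h1 : 6 * R ^ 5 * c ≤ X ^ 2 := by
      by_contra hlt
      push Not at hlt
      have h2 : (X ^ 2) ^ 2 < (6 * R ^ 5 * c) ^ 2 := pow_lt_pow_left₀ hlt (by positivity) (by norm_num)
      have h3 : (6 * R ^ 5 * c) ^ 2 ≤ X ^ 4 := by
        have h4 : (36 : ℝ) ≤ R ^ 6 := by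
          calc (36 : ℝ) ≤ 2 ^ 6 := by norm_num
            _ ≤ R ^ 6 := pow_le_pow_left₀ (by norm_num) hR2 6
        calc (6 * R ^ 5 * c) ^ 2 = 36 * R ^ 10 * c ^ 2 := by ring
          _ ≤ R ^ 6 * R ^ 10 * X ^ 3 := by
            refine mul_le_mul ?_ hc2 (by positivity) (by positivity)
            exact mul_le_mul_of_nonneg_right h4 (by positivity)
          _ = R ^ 16 * X ^ 3 := by ring
          _ ≤ X * X ^ 3 := mul_le_mul_of_nonneg_right hX16 (by positivity)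
          _ = X ^ 4 := by ring
      have h5 : (X ^ 2) ^ 2 = X ^ 4 := by ring
      linarith
    have h6 : (H : ℝ) ^ 2 * (6 * R * (c * (2 * R ^ 2 / X ^ 2))) = (6 * R ^ 5 * c) / X ^ 2 / 2 := by
      rw [hHR]; field_simp
    rw [h6]
    have h7 : (6 * R ^ 5 * c) / X ^ 2 ≤ 1 := by
      rw [div_le_one (by positivity)]
      exact h1
    linarith
  -- the number field
  let E : IntermediateField ℚ ℂ := IntermediateField.adjoin ℚ (Set.range θ)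
  have hfin : FiniteDimensional ℚ E := by
    apply IntermediateField.finiteDimensional_adjoin
    rintro _ ⟨i, rfl⟩
    have h2 : aeval (θ i) (g.map (algebraMap ℤ ℚ)) = 0 := by
      rw [aeval_map_algebraMap]; exact hroot i
    have h1 : IsAlgebraic ℚ (θ i) :=
      ⟨_, (Polynomial.map_ne_zero_iff (RingHom.injective_int (algebraMap ℤ ℚ))).2 hg, h2⟩
    exact h1.isIntegral
  let t : Fin d → E := fun i => ⟨θ i, IntermediateField.subset_adjoin ℚ _ ⟨i, rfl⟩⟩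
  let G : Fin d → E := fun i => aeval (t i) Ba * aeval (t i) Bb / ((x0 : E) - t i)
  have htr : ∀ i, aeval (t i) g = 0 := by
    intro i
    have h1 := aeval_algHom_apply (E.val.restrictScalars ℤ) (t i) g
    have h2 : (E.val.restrictScalars ℤ) (t i) = θ i := rfl
    rw [h2, hroot i] at h1
    exact Subtype.val_injective h1.symm
  have hσ : ∀ (σ : E →ₐ[ℚ] ℂ) (i j : Fin d), σ (t i) = θ j → σ (G i) = γ j := by
    intro σ i j hij
    simp only [G]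
    rw [map_div₀, map_mul, map_sub, map_intCast, ← aeval_algHom_apply, ← aeval_algHom_apply, hij, hγ]
  let i0 : Fin d := ⟨0, by omega⟩
  let i1 : Fin d := ⟨1, by omega⟩
  let i2 : Fin d := ⟨2, by omega⟩
  let z : E := (g.leadingCoeff : E) ^ 2 *
    (G i0 * (t i1 - t i2) + G i1 * (t i2 - t i0) + G i2 * (t i0 - t i1))
  have hz : ∀ (σ : E →ₐ[ℚ] ℂ) (j0 j1 j2 : Fin d), σ (t i0) = θ j0 → σ (t i1) = θ j1 →
      σ (t i2) = θ j2 → σ z = (g.leadingCoeff : ℂ) ^ 2 *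
        (γ j0 * (θ j1 - θ j2) + γ j1 * (θ j2 - θ j0) + γ j2 * (θ j0 - θ j1)) := by
    intro σ j0 j1 j2 h0 h1 h2
    simp only [z]
    rw [map_mul, map_pow, map_intCast, map_add, map_add, map_mul, map_mul, map_mul, map_sub, map_sub,
      map_sub, hσ σ i0 j0 h0, hσ σ i1 j1 h1, hσ σ i2 j2 h2, h0, h1, h2]
  obtain ⟨ι, hι⟩ : ∃ ι : E →ₐ[ℚ] ℂ, ∀ w : E, ι w = (w : ℂ) := ⟨E.val, fun _ => rfl⟩
  have hzv := hz ι i0 i1 i2 (hι _) (hι _) (hι _)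
  have hz0 : z = 0 := by
    apply int_small z
    · rw [← hι z, hzv]
      have hlθ : ∀ i, IsIntegral ℤ ((g.leadingCoeff : ℂ) * θ i) := by
        intro i
        have h1 := isIntegral_leadingCoeff_smul g (θ i) (hroot i)
        rwa [zsmul_eq_mul] at h1
      have hzi : ∀ n : ℤ, IsIntegral ℤ (n : ℂ) := fun n => isIntegral_algebraMap (R := ℤ) (x := n)
      have hlγ : ∀ i, IsIntegral ℤ ((g.leadingCoeff : ℂ) * γ i) := by
        intro i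
        apply IsIntegral.of_pow (n := 2) (by norm_num)
        have h1 : ((g.leadingCoeff : ℂ) * γ i) ^ 2 =
            ((g.leadingCoeff : ℂ) * xa - (g.leadingCoeff : ℂ) * θ i) *
              ((g.leadingCoeff : ℂ) * xb - (g.leadingCoeff : ℂ) * θ i) := by
          rw [mul_pow, hγ2]; ring
        rw [h1]
        exact (((hzi _).mul (hzi _)).sub (hlθ i)).mul (((hzi _).mul (hzi _)).sub (hlθ i))
      have h2 : (g.leadingCoeff : ℂ) ^ 2 *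
          (γ i0 * (θ i1 - θ i2) + γ i1 * (θ i2 - θ i0) + γ i2 * (θ i0 - θ i1)) =
          ((g.leadingCoeff : ℂ) * γ i0) * ((g.leadingCoeff : ℂ) * θ i1 - (g.leadingCoeff : ℂ) * θ i2) +
          ((g.leadingCoeff : ℂ) * γ i1) * ((g.leadingCoeff : ℂ) * θ i2 - (g.leadingCoeff : ℂ) * θ i0) +
          ((g.leadingCoeff : ℂ) * γ i2) *
            ((g.leadingCoeff : ℂ) * θ i0 - (g.leadingCoeff : ℂ) * θ i1) := by ring
      rw [h2]
      exact (((hlγ i0).mul ((hlθ i1).sub (hlθ i2))).add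
        ((hlγ i1).mul ((hlθ i2).sub (hlθ i0)))).add ((hlγ i2).mul ((hlθ i0).sub (hlθ i1)))
    · intro σ
      have hπ : ∀ i, ∃ j, σ (t i) = θ j := by
        intro i
        have h1 := aeval_algHom_apply (σ.restrictScalars ℤ) (t i) g
        rw [htr i, map_zero] at h1
        obtain ⟨j, hj⟩ := hall _ h1
        exact ⟨j, hj.symm⟩
      obtain ⟨j0, k0⟩ := hπ i0
      obtain ⟨j1, k1⟩ := hπ i1
      obtain ⟨j2, k2⟩ := hπ i2
      rw [hz σ j0 j1 j2 k0 k1 k2, norm_mul, norm_pow, hnorm]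
      refine le_trans ?_ hsmall
      refine mul_le_mul ?_ (hN j0 j1 j2) (norm_nonneg _) (by positivity)
      refine pow_le_pow_left₀ (by positivity) ?_ 2
      exact_mod_cast hlc
  have hlc0 : (g.leadingCoeff : ℂ) ≠ 0 := by
    exact_mod_cast leadingCoeff_ne_zero.2 hg
  have hN0 : γ i0 * (θ i1 - θ i2) + γ i1 * (θ i2 - θ i0) + γ i2 * (θ i0 - θ i1) = 0 := by
    rw [hz0, map_zero] at hzv
    rcases mul_eq_zero.1 hzv.symm with h | h
    · exact absurd h (pow_ne_zero _ hlc0)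
    · exact h
  have hfinal := collinear (hθ.ne (by simp [i0, i1])) (hθ.ne (by simp [i0, i2]))
    (hθ.ne (by simp [i1, i2])) (hγ2 i0) (hγ2 i1) (hγ2 i2) hN0
  exact_mod_cast hfinal

/-- the gap principle -/
theorem gap {d : ℕ} (hd : 3 ≤ d) (H : ℕ) (g : ℤ[X]) (θ : Fin d → ℂ) (hH : 1 ≤ H) (hg : g ≠ 0)
    (hθ : Function.Injective θ) (hroot : ∀ i, aeval (θ i) g = 0)
    (hall : ∀ z : ℂ, aeval z g = 0 → ∃ i, θ i = z) (hlc : |g.leadingCoeff| ≤ H)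
    (hR : ∀ i, ‖θ i‖ ≤ ((2 * H : ℕ) : ℝ)) (x : Fin (2 ^ d + 1) → ℤ) (hx : Function.Injective x)
    (hbig : ∀ a, (2 * H : ℤ) ^ 16 < |x a|) (B : Fin (2 ^ d + 1) → ℚ[X])
    (hB : ∀ a i, (aeval (θ i) (B a)) ^ 2 = ((x 0 : ℂ) - θ i) * ((x a : ℂ) - θ i)) :
    ∃ a b, a ≠ b ∧ |x a| ^ 2 ≤ |x b| := by
  classical
  by_contra hcon
  push Not at hcon
  have hs : ∀ a, ∃ s : ℂ, s ^ 2 = ((x a : ℤ) : ℂ) := fun a =>
    IsAlgClosed.exists_pow_nat_eq _ (by norm_num)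
  choose s hs using hs
  let sg : Fin (2 ^ d + 1) → (Fin d → Bool) := fun a i =>
    decide (0 ≤ (aeval (θ i) (B a) / (s 0 * s a)).re)
  obtain ⟨a, b, hab, hsg⟩ := Fintype.exists_ne_map_eq_of_card_lt sg (by simp)
  have hsg' : ∀ i, (0 ≤ (aeval (θ i) (B a) / (s 0 * s a)).re) ↔
      (0 ≤ (aeval (θ i) (B b) / (s 0 * s b)).re) := by
    intro i
    have h1 := congrFun hsg i
    simpa only [sg, decide_eq_decide] using h1
  rcases le_total |x a| |x b| with h | h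
  · exact hab (hx (pair hd H g θ hH hg hθ hroot hall hlc hR (x 0) (x a) (x b) (hbig 0) (hbig a) h
      (hcon a b hab) (s 0) (s a) (s b) (hs 0) (hs a) (hs b) (B a) (B b) (hB a) (hB b) hsg'))
  · exact hab (hx (pair hd H g θ hH hg hθ hroot hall hlc hR (x 0) (x b) (x a) (hbig 0) (hbig b) h
      (hcon b a hab.symm) (s 0) (s b) (s a) (hs 0) (hs b) (hs a) (B b) (B a) (hB b) (hB a)
      fun i => (hsg' i).symm)).symm

end Pool.Agent.Q236.FC
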