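import Pool.Agent.Q236.FC.Gap
import Pool.Agent.Y910.F.F4
import Pool.Agent.Y910.F.F6
import Pool.Agent.Y396.FC.SG
import Pool.Agent.Y525.FC.INT
import Pool.Agent.Y907.FC.FLIP
import Pool.Agent.Y396.FC.IRR
import Pool.Agent.Y348.FC.PLACE
import Pool.Agent.Y876.FC.GEN

/-!
Few large integers in every class of the 2-descent of the curves `y ^ 2 = f(x)`.
-/

open Polynomial

set_option autoImplicit false

namespace Pool.Agent.Q236.FC

open Pool.Agent.Y910.F

/-- `(x - T) (x' - T)` is a square modulo `g` -/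
def Same (g : ℤ[X]) (x x' : ℤ) : Prop :=
  ∃ B : ℚ[X], g.map (Int.castRingHom ℚ) ∣ B ^ 2 - (C (x : ℚ) - X) * (C (x' : ℚ) - X)

lemma same_eval {g : ℤ[X]} {x x' : ℤ} {B : ℚ[X]} {z : ℂ} (hz : aeval z g = 0)
    (h : g.map (Int.castRingHom ℚ) ∣ B ^ 2 - (C (x : ℚ) - X) * (C (x' : ℚ) - X)) :
    (aeval z B) ^ 2 = ((x : ℂ) - z) * ((x' : ℂ) - z) := by
  obtain ⟨Q, hQ⟩ := h
  have h1 := congrArg (aeval z) hQ
  have h2 : aeval z (g.map (Int.castRingHom ℚ)) = 0 := by
    rw [← hz]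
    exact aeval_map_algebraMap ℚ z g
  rw [map_mul, h2, zero_mul, map_sub, map_pow, map_mul, map_sub, map_sub, aeval_C, aeval_C,
    aeval_X] at h1
  simp only [map_intCast] at h1
  exact sub_eq_zero.1 h1

lemma enum (g : ℤ[X]) (hg : (g.map (Int.castRingHom ℚ)).Separable) :
    ∃ θ : Fin g.natDegree → ℂ, Function.Injective θ ∧ (∀ i, aeval (θ i) g = 0) ∧
      ∀ z : ℂ, aeval z g = 0 → ∃ i, θ i = z := by
  classical
  obtain ⟨θ, h1, h2, h3⟩ := Pool.Agent.Y910.R.exists_enum g hg g.natDegree rfl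
  refine ⟨θ, h1, h2, fun z hz => ?_⟩
  by_contra hcon
  push Not at hcon
  have h4 := h3 (fun r => if r = z then 1 else 0)
  have h5 : ∑ i, (if θ i = z then (1 : ℂ) else 0) = 0 :=
    Finset.sum_eq_zero fun i _ => if_neg (hcon i)
  rw [h5, Finset.sum_ite_eq', if_pos] at h4
  · exact zero_ne_one h4
  · rw [Multiset.mem_toFinset, mem_roots', IsRoot.def, eval_map_algebraMap]
    refine ⟨?_, ?_⟩
    · refine (Polynomial.map_ne_zero_iff (algebraMap ℚ ℂ).injective).2 hg.ne_zero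
    · rw [← hz]
      exact aeval_map_algebraMap ℚ z g

/-- few large integers in every class, for polynomials of a given degree -/
theorem few1 (d : ℕ) (hd : 3 ≤ d) : ∃ M N : ℕ, ∀ (H : ℕ) (g : ℤ[X]), 1 ≤ H → g.natDegree = d →
    (g.map (Int.castRingHom ℚ)).Separable → (∀ i, |g.coeff i| ≤ H) →
    ∀ s : Finset ℤ, (∀ x ∈ s, (2 * H : ℤ) ^ M < |x|) → (∀ x ∈ s, ∀ x' ∈ s, Same g x x') →
    s.card ≤ N := by
  classical
  obtain ⟨M1, N1, hfr⟩ := frame Pool.Agent.Y396.FC.SG.done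
    (Pool.Agent.Y525.FC.done Pool.Agent.Y396.FC.SG.done) Pool.Agent.Y907.FC.FLIP.done
    Pool.Agent.Y396.FC.IRR.done Pool.Agent.Y348.FC.done Pool.Agent.Y876.FC.done d hd
  refine ⟨16, 2 ^ d * (3 * M1 + 1) + N1, ?_⟩
  intro H g hH hgd hsep hcoef s hbig hsame
  have hg0 : g ≠ 0 := by
    rintro rfl
    rw [natDegree_zero] at hgd
    omega
  rcases s.eq_empty_or_nonempty with rfl | hne
  · simp
  obtain ⟨x0, hx0, hmin⟩ := Finset.exists_min_image s (fun x => |x|) hne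
  obtain ⟨θ, hθ, hroot, hall⟩ := enum g hsep
  have hlc : |g.leadingCoeff| ≤ H := hcoef _
  have hRb : ∀ z : ℂ, aeval z g = 0 → ‖z‖ ≤ ((2 * H : ℕ) : ℝ) := fun z hz =>
    root_bound g H hg0 hcoef hH z hz
  have hH' : (1 : ℝ) ≤ H := by exact_mod_cast hH
  -- the size of `x0`
  obtain ⟨Y, hY⟩ : ∃ Y : ℕ, Y = x0.natAbs := ⟨_, rfl⟩
  have hYx : (Y : ℤ) = |x0| := by rw [hY]; exact Int.natCast_natAbs x0
  have hYbig : (2 * H : ℤ) ^ 16 < Y := by rw [hYx]; exact hbig x0 hx0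
  have hYbigN : (2 * H) ^ 16 < Y := by exact_mod_cast hYbig
  have h2H : 2 ≤ 2 * H := by omega
  have hY4 : 4 * H ^ 2 ≤ Y := by
    have h1 : (2 * H) ^ 2 ≤ (2 * H) ^ 16 := Nat.pow_le_pow_right (by omega) (by norm_num)
    have h2 : (2 * H) ^ 2 = 4 * H ^ 2 := by ring
    omega
  have hY2H : 2 * H < Y := by
    have h1 : 2 * H ≤ (2 * H) ^ 16 := Nat.le_self_pow (by norm_num) _
    omega
  have hY2 : 2 ≤ Y := by omega
  -- the far part
  have hfar : (s.filter fun x => (2 * (Y ^ 2 : ℕ) : ℤ) ^ M1 < |x|).card ≤ N1 := by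
    refine hfr (Y ^ 2) g (C ((g.leadingCoeff : ℚ) ^ 2) * (C (x0 : ℚ) - X)) _
      (Nat.one_le_pow _ _ (by omega)) hgd hsep ?_ ?_ ?_
    · intro i
      refine (hcoef i).trans ?_
      have h1 : H ≤ Y ^ 2 := by nlinarith
      exact_mod_cast h1
    · intro z hz
      have hev : aeval z (C ((g.leadingCoeff : ℚ) ^ 2) * (C (x0 : ℚ) - X)) =
          (g.leadingCoeff : ℂ) ^ 2 * ((x0 : ℂ) - z) := by
        simp
      rw [hev]
      have hzn := hRb z hz
      have hx0n : ‖(x0 : ℂ)‖ = (Y : ℝ) := by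
        rw [Complex.norm_intCast]
        have h1 : ((Y : ℤ) : ℝ) = ((|x0| : ℤ) : ℝ) := by rw [hYx]
        push_cast at h1
        exact h1.symm
      refine ⟨?_, ?_, ?_⟩
      · have h1 : IsIntegral ℤ ((g.leadingCoeff : ℂ) * z) := by
          have h2 := isIntegral_leadingCoeff_smul g z hz
          rwa [zsmul_eq_mul] at h2
        have hzi : ∀ n : ℤ, IsIntegral ℤ (n : ℂ) := fun n => isIntegral_algebraMap (R := ℤ) (x := n)
        have h3 : (g.leadingCoeff : ℂ) ^ 2 * ((x0 : ℂ) - z) =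
            (g.leadingCoeff : ℂ) * ((g.leadingCoeff : ℂ) * x0 - (g.leadingCoeff : ℂ) * z) := by ring
        rw [h3]
        exact (hzi _).mul (((hzi _).mul (hzi _)).sub h1)
      · refine mul_ne_zero (pow_ne_zero _ ?_) ?_
        · exact_mod_cast leadingCoeff_ne_zero.2 hg0
        · intro h
          have h1 : (x0 : ℂ) = z := sub_eq_zero.1 h
          rw [h1] at hx0n
          rw [hx0n] at hzn
          have h2 : Y ≤ 2 * H := by exact_mod_cast hzn
          omega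
      · rw [norm_mul, norm_pow]
        have h1 : ‖(g.leadingCoeff : ℂ)‖ ≤ H := by
          rw [Complex.norm_intCast]
          exact_mod_cast hlc
        have h2 : ‖(x0 : ℂ) - z‖ ≤ 2 * Y := by
          refine (norm_sub_le _ _).trans ?_
          have h3 : ((2 * H : ℕ) : ℝ) ≤ Y := by exact_mod_cast hY2H.le
          rw [hx0n]
          linarith
        have h3 : (4 * (H : ℝ) ^ 2) ≤ Y := by exact_mod_cast hY4
        calc ‖(g.leadingCoeff : ℂ)‖ ^ 2 * ‖(x0 : ℂ) - z‖ ≤ (H : ℝ) ^ 2 * (2 * Y) :=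
              mul_le_mul (pow_le_pow_left₀ (norm_nonneg _) h1 2) h2 (norm_nonneg _) (by positivity)
          _ ≤ ((Y ^ 2 : ℕ) : ℝ) := by
            push_cast
            have hYr : (0 : ℝ) ≤ Y := by positivity
            nlinarith
    · intro x hx
      rw [Finset.mem_filter] at hx
      refine ⟨hx.2, ?_⟩
      obtain ⟨B, hB⟩ := hsame x0 hx0 x hx.1
      refine ⟨C (g.leadingCoeff : ℚ) * B, ?_⟩
      have h1 : (C (g.leadingCoeff : ℚ) * B) ^ 2 -
          C ((g.leadingCoeff : ℚ) ^ 2) * (C (x0 : ℚ) - X) * (C (x : ℚ) - X) =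
          C ((g.leadingCoeff : ℚ) ^ 2) * (B ^ 2 - (C (x0 : ℚ) - X) * (C (x : ℚ) - X)) := by
        rw [C_pow]; ring
      rw [h1]
      exact Dvd.dvd.mul_left hB _
  -- the near part
  have hnear : (s.filter fun x => ¬ (2 * (Y ^ 2 : ℕ) : ℤ) ^ M1 < |x|).card ≤
      2 ^ d * (3 * M1 + 1) := by
    obtain ⟨s2, hs2⟩ : ∃ s2, s2 = s.filter fun x => ¬ (2 * (Y ^ 2 : ℕ) : ℤ) ^ M1 < |x| := ⟨_, rfl⟩
    rw [← hs2]
    have hup : ∀ x ∈ s2, x.natAbs < Y ^ 2 ^ (3 * M1 + 1) := by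
      intro x hx
      rw [hs2, Finset.mem_filter, not_lt] at hx
      have h1 : x.natAbs ≤ (2 * Y ^ 2) ^ M1 := by
        have h2 := hx.2
        rw [← Int.natCast_natAbs] at h2
        exact_mod_cast h2
      have h3 : 2 * Y ^ 2 ≤ Y ^ 3 := by
        calc 2 * Y ^ 2 ≤ Y * Y ^ 2 := Nat.mul_le_mul_right _ hY2
          _ = Y ^ 3 := by ring
      calc x.natAbs ≤ (2 * Y ^ 2) ^ M1 := h1
        _ ≤ (Y ^ 3) ^ M1 := Nat.pow_le_pow_left h3 _
        _ = Y ^ (3 * M1) := by rw [← pow_mul]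
        _ < Y ^ 2 ^ (3 * M1 + 1) := by
          apply Nat.pow_lt_pow_right (by omega)
          calc 3 * M1 < 2 ^ (3 * M1) := Nat.lt_two_pow_self
            _ ≤ 2 ^ (3 * M1 + 1) := Nat.pow_le_pow_right (by norm_num) (by omega)
    have hex : ∀ x : ℤ, ∃ k : ℕ, x ∈ s2 → k ≤ 3 * M1 ∧ Y ^ 2 ^ k ≤ x.natAbs ∧
        x.natAbs < Y ^ 2 ^ (k + 1) := by
      intro x
      by_cases hx : x ∈ s2
      swap
      · exact ⟨0, fun h => absurd h hx⟩
      have hP : ∃ k, x.natAbs < Y ^ 2 ^ (k + 1) := ⟨3 * M1, hup x hx⟩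
      refine ⟨Nat.find hP, fun _ => ⟨Nat.find_min' hP (hup x hx), ?_, Nat.find_spec hP⟩⟩
      rcases Nat.eq_zero_or_pos (Nat.find hP) with h0 | h0
      · rw [h0, pow_zero, pow_one, hY]
        rw [hs2, Finset.mem_filter] at hx
        have h1 := hmin x hx.1
        rw [← Int.natCast_natAbs, ← Int.natCast_natAbs] at h1
        exact_mod_cast h1
      · have h1 := Nat.find_min hP (m := Nat.find hP - 1) (by omega)
        rw [not_lt, Nat.sub_add_cancel h0] at h1
        exact h1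
    choose κ hκ using hex
    have hfib : ∀ a ∈ s2.image κ, (s2.filter fun x => κ x = a).card ≤ 2 ^ d := by
      intro a _
      by_contra hcon
      push Not at hcon
      obtain ⟨u, hu, hucard⟩ := Finset.exists_subset_card_eq (s := s2.filter fun x => κ x = a)
        (n := 2 ^ d + 1) hcon
      let e := u.equivFinOfCardEq hucard
      have hmem : ∀ j, ((e.symm j : u) : ℤ) ∈ s2.filter fun x => κ x = a := fun j =>
        hu (e.symm j).2
      have hms : ∀ j, ((e.symm j : u) : ℤ) ∈ s := by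
        intro j
        have h1 := (Finset.mem_filter.1 (hmem j)).1
        rw [hs2] at h1
        exact (Finset.mem_filter.1 h1).1
      have hBex : ∀ j : Fin (2 ^ d + 1), ∃ B : ℚ[X], g.map (Int.castRingHom ℚ) ∣
          B ^ 2 - (C ((((e.symm 0 : u) : ℤ)) : ℚ) - X) * (C ((((e.symm j : u) : ℤ)) : ℚ) - X) :=
        fun j => hsame _ (hms 0) _ (hms j)
      choose B hB using hBex
      subst hgd
      obtain ⟨j, j', hjj, hle⟩ := gap hd H g θ hH hg0 hθ hroot hall hlc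
        (fun i => hRb _ (hroot i)) (fun j => ((e.symm j : u) : ℤ))
        (fun j j' h => e.symm.injective (Subtype.ext h)) (fun j => hbig _ (hms j)) B
        (fun j i => same_eval (hroot i) (hB j))
      have h1 := hκ _ (Finset.mem_filter.1 (hmem j)).1
      have h2 := hκ _ (Finset.mem_filter.1 (hmem j')).1
      rw [(Finset.mem_filter.1 (hmem j)).2] at h1
      rw [(Finset.mem_filter.1 (hmem j')).2] at h2
      have h3 : (((e.symm j : u) : ℤ)).natAbs ^ 2 ≤ (((e.symm j' : u) : ℤ)).natAbs := by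
        rw [← Int.natCast_natAbs, ← Int.natCast_natAbs] at hle
        exact_mod_cast hle
      have h4 : (Y ^ 2 ^ a) ^ 2 ≤ (((e.symm j : u) : ℤ)).natAbs ^ 2 :=
        Nat.pow_le_pow_left h1.2.1 2
      have h5 : (Y ^ 2 ^ a) ^ 2 = Y ^ 2 ^ (a + 1) := by
        rw [← pow_mul, ← pow_succ]
      have h6 := h2.2.2
      omega
    have himg : (s2.image κ).card ≤ 3 * M1 + 1 := by
      calc (s2.image κ).card ≤ (Finset.range (3 * M1 + 1)).card := by
            apply Finset.card_le_card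
            intro k hk
            obtain ⟨x, hx, rfl⟩ := Finset.mem_image.1 hk
            exact Finset.mem_range.2 (Nat.lt_succ_of_le (hκ x hx).1)
        _ = 3 * M1 + 1 := Finset.card_range _
    exact (Finset.card_le_mul_card_image s2 (2 ^ d) hfib).trans (Nat.mul_le_mul_left _ himg)
  have hsplit := Finset.card_filter_add_card_filter_not (s := s)
    (fun x => (2 * (Y ^ 2 : ℕ) : ℤ) ^ M1 < |x|)
  omega

/-- few large integers in every class of the 2-descent attached to a factor of `f` -/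
theorem few (d : ℕ) : ∃ M N : ℕ, ∀ (H : ℕ) (f : ℤ[X]), 1 ≤ H → f.natDegree = d →
    (f.map (Int.castRingHom ℚ)).Separable → (∀ i, |f.coeff i| ≤ H) →
    ∀ g : ℤ[X], g ∣ f → 3 ≤ g.natDegree →
    ∀ s : Finset ℤ, (∀ x ∈ s, (2 * H : ℤ) ^ M < |x|) → (∀ x ∈ s, ∀ x' ∈ s, Same g x x') →
    s.card ≤ N := by
  classical
  have hex : ∀ e : ℕ, ∃ M N : ℕ, 3 ≤ e → ∀ (H : ℕ) (g : ℤ[X]), 1 ≤ H → g.natDegree = e →
      (g.map (Int.castRingHom ℚ)).Separable → (∀ i, |g.coeff i| ≤ H) →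
      ∀ s : Finset ℤ, (∀ x ∈ s, (2 * H : ℤ) ^ M < |x|) → (∀ x ∈ s, ∀ x' ∈ s, Same g x x') →
      s.card ≤ N := by
    intro e
    by_cases he : 3 ≤ e
    · obtain ⟨M, N, h⟩ := few1 e he
      exact ⟨M, N, fun _ => h⟩
    · exact ⟨0, 0, fun h => absurd h he⟩
  choose M N hMN using hex
  refine ⟨(2 * d + 1) * ∑ e ∈ Finset.range (d + 1), M e, ∑ e ∈ Finset.range (d + 1), N e, ?_⟩
  intro H f hH hfd hsep hcoef g hgf hg3 s hbig hsame
  have hf0 : f ≠ 0 := by
    rintro rfl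
    simp at hsep
    exact hsep.ne_zero rfl
  have hge : g.natDegree ≤ d := by rw [← hfd]; exact natDegree_le_of_dvd hgf hf0
  have hgm : g.natDegree ∈ Finset.range (d + 1) := Finset.mem_range.2 (by omega)
  have hN : N g.natDegree ≤ ∑ e ∈ Finset.range (d + 1), N e :=
    Finset.single_le_sum (f := N) (fun _ _ => Nat.zero_le _) hgm
  have hM : M g.natDegree ≤ ∑ e ∈ Finset.range (d + 1), M e :=
    Finset.single_le_sum (f := M) (fun _ _ => Nat.zero_le _) hgm
  refine le_trans ?_ hN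
  refine hMN g.natDegree hg3 (2 ^ d * ((d + 1) * H)) g ?_ rfl ?_ ?_ s ?_ hsame
  · exact Nat.mul_pos (by positivity) (Nat.mul_pos (by omega) hH)
  · obtain ⟨q, rfl⟩ := hgf
    rw [Polynomial.map_mul] at hsep
    exact hsep.of_mul_left
  · intro i
    exact factor_bound d H f g hfd hf0 hcoef hgf i
  · intro x hx
    refine lt_of_le_of_lt ?_ (hbig x hx)
    have h1 : 2 * (2 ^ d * ((d + 1) * H)) ≤ (2 * H) ^ (2 * d + 1) := by
      have h2 : d + 1 ≤ 2 ^ d := Nat.lt_two_pow_self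
      have h3 : H ≤ H ^ (2 * d + 1) := Nat.le_self_pow (by omega) _
      calc 2 * (2 ^ d * ((d + 1) * H)) ≤ 2 * (2 ^ d * (2 ^ d * H ^ (2 * d + 1))) := by gcongr
        _ = (2 * H) ^ (2 * d + 1) := by rw [mul_pow]; ring
    have h4 : (2 * (2 ^ d * ((d + 1) * H))) ^ M g.natDegree ≤
        (2 * H) ^ ((2 * d + 1) * ∑ e ∈ Finset.range (d + 1), M e) := by
      calc (2 * (2 ^ d * ((d + 1) * H))) ^ M g.natDegree
          ≤ ((2 * H) ^ (2 * d + 1)) ^ M g.natDegree := Nat.pow_le_pow_left h1 _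
        _ = (2 * H) ^ ((2 * d + 1) * M g.natDegree) := by rw [← pow_mul]
        _ ≤ _ := Nat.pow_le_pow_right (by omega) (Nat.mul_le_mul_left _ hM)
    exact_mod_cast h4

end Pool.Agent.Q236.FC
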